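import Mathlib

/-!
Two inequivalent three-element subsets of `ℤ/21ℤ` with the same Sidon constant `2/√3`, neither of
them extreme.
-/

open Finset Complex

namespace Pool.Agent.Results.MP_e96fbd_an.EqualSidonNotExtreme

/-- The Sidon constant of `E ⊆ ℤ/kℤ`. The character `χ_x(t) = exp (2 π i x t / k)` is
`ZMod.stdAddChar (x * t)`. -/
noncomputable def sidon {k : ℕ} [NeZero k] (E : Finset (ZMod k)) : ℝ :=
  sSup {s : ℝ | ∃ a : ZMod k → ℂ,
    (∀ t : ZMod k, ‖∑ x ∈ E, a x * ZMod.stdAddChar (x * t)‖ ≤ 1) ∧ s = ∑ x ∈ E, ‖a x‖}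

/-- `E` is extreme. -/
def Extreme {k : ℕ} [NeZero k] (E : Finset (ZMod k)) : Prop := sidon E = Real.sqrt #E

/-- `E` and `F` are equivalent: `F = u E + c` for some unit `u` and some `c`. -/
def Equivalent {k : ℕ} (E F : Finset (ZMod k)) : Prop :=
  ∃ (u : (ZMod k)ˣ) (c : ZMod k), F = E.image fun x => u * x + c

/-- Every complex number can be rotated by an `n`-th root of unity into the sector of half-angle
`π / n` around the positive axis. -/
lemma exists_rot (n : ℕ) (hn : 1 ≤ n) (w : ℂ) :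
    ∃ j : ℤ, ‖w‖ * Real.cos (Real.pi / n) ≤ (w * exp (2 * Real.pi * I * j / n)).re := by
  have hn0 : (0 : ℝ) < n := by exact_mod_cast hn
  set θ := arg w with hθ
  refine ⟨-round (θ * n / (2 * Real.pi)), ?_⟩
  set m : ℤ := round (θ * n / (2 * Real.pi)) with hm
  have h1 : |θ * n / (2 * Real.pi) - m| ≤ 1 / 2 := abs_sub_round _
  have h2 : |θ - 2 * Real.pi * m / n| ≤ Real.pi / n := by
    have h3 : θ - 2 * Real.pi * m / n = (θ * n / (2 * Real.pi) - m) * (2 * Real.pi / n) := by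
      field_simp
    rw [h3, abs_mul, abs_of_pos (show 0 < 2 * Real.pi / n by positivity)]
    calc |θ * n / (2 * Real.pi) - m| * (2 * Real.pi / n) ≤ 1 / 2 * (2 * Real.pi / n) := by gcongr
      _ = Real.pi / n := by ring
  have h4 : w * exp (2 * Real.pi * I * ((-m : ℤ) : ℂ) / n) =
      ‖w‖ * exp ((θ - 2 * Real.pi * m / n : ℝ) * I) := by
    conv_lhs => rw [← norm_mul_exp_arg_mul_I w]
    rw [mul_assoc, ← exp_add]
    congr 2
    push_cast
    ring
  rw [h4, re_ofReal_mul, exp_ofReal_mul_I_re, ← Real.cos_abs (θ - 2 * Real.pi * m / n)]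
  refine mul_le_mul_of_nonneg_left ?_ (norm_nonneg _)
  refine Real.cos_le_cos_of_nonneg_of_le_pi (abs_nonneg _) ?_ h2
  exact div_le_self Real.pi_pos.le (by exact_mod_cast hn)

lemma norm_sq_add (z w : ℂ) : ‖z + w‖ ^ 2 = ‖z‖ ^ 2 + ‖w‖ ^ 2 + 2 * (w * (starRingEnd ℂ) z).re := by
  rw [← normSq_eq_norm_sq, ← normSq_eq_norm_sq, ← normSq_eq_norm_sq, normSq_add]
  have : (w * (starRingEnd ℂ) z).re = (z * (starRingEnd ℂ) w).re := by
    simp [mul_re]; ring
  rw [this]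

lemma char_norm (x : ZMod 21) : ‖ZMod.stdAddChar (N := 21) x‖ = 1 := by
  rw [ZMod.stdAddChar_apply]; exact Circle.norm_coe _

lemma char7 (j : ℤ) : ZMod.stdAddChar (N := 21) (7 * (j : ZMod 21)) =
    exp (2 * Real.pi * I * j / (3 : ℕ)) := by
  have : (7 * (j : ZMod 21)) = ((7 * j : ℤ) : ZMod 21) := by push_cast; rfl
  rw [this, ZMod.stdAddChar_coe]
  congr 1
  push_cast
  ring

lemma char3 (j : ℤ) : ZMod.stdAddChar (N := 21) (3 * (j : ZMod 21)) =
    exp (2 * Real.pi * I * j / (7 : ℕ)) := by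
  have : (3 * (j : ZMod 21)) = ((3 * j : ℤ) : ZMod 21) := by push_cast; rfl
  rw [this, ZMod.stdAddChar_coe]
  congr 1
  push_cast
  ring

/-- The lower bound for the maximum of a polynomial. -/
lemma lower (x : ZMod 21) (hx : ∃ y : ZMod 21, 3 * x * y = 3) (a b c : ℂ) :
    ∃ t : ZMod 21, Real.sqrt 3 / 2 * (‖a‖ + ‖b‖ + ‖c‖) ≤
      ‖a + b * ZMod.stdAddChar (7 * t) + c * ZMod.stdAddChar (x * t)‖ := by
  have h3 : Real.sqrt 3 ^ 2 = 3 := Real.sq_sqrt (by norm_num)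
  have h3' : 0 ≤ Real.sqrt 3 := Real.sqrt_nonneg 3
  obtain ⟨j1, hj1⟩ := exists_rot 3 (by norm_num) (b * (starRingEnd ℂ) a)
  have hcos3 : Real.cos (Real.pi / (3 : ℕ)) = 1 / 2 := by
    rw [Nat.cast_ofNat, Real.cos_pi_div_three]
  rw [hcos3, norm_mul, RCLike.norm_conj] at hj1
  set r : ZMod 21 := (j1 : ZMod 21) with hr
  set z : ℂ := a + b * ZMod.stdAddChar (7 * r) with hz
  have hz1 : 3 / 4 * (‖a‖ + ‖b‖) ^ 2 ≤ ‖z‖ ^ 2 := by
    rw [hz, norm_sq_add, norm_mul, char_norm, mul_one]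
    have e : b * ZMod.stdAddChar (7 * r) * (starRingEnd ℂ) a =
        b * (starRingEnd ℂ) a * exp (2 * Real.pi * I * j1 / (3 : ℕ)) := by
      rw [hr, char7]; ring
    rw [e]
    nlinarith [sq_nonneg (‖a‖ - ‖b‖)]
  have hz2 : Real.sqrt 3 / 2 * (‖a‖ + ‖b‖) ≤ ‖z‖ := by
    refine le_of_sq_le_sq ?_ (norm_nonneg _)
    calc (Real.sqrt 3 / 2 * (‖a‖ + ‖b‖)) ^ 2 = Real.sqrt 3 ^ 2 / 4 * (‖a‖ + ‖b‖) ^ 2 := by ring
      _ = 3 / 4 * (‖a‖ + ‖b‖) ^ 2 := by rw [h3]
      _ ≤ _ := hz1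
  obtain ⟨j2, hj2⟩ := exists_rot 7 (by norm_num)
    (c * ZMod.stdAddChar (x * r) * (starRingEnd ℂ) z)
  rw [norm_mul, norm_mul, char_norm, RCLike.norm_conj, mul_one] at hj2
  have hcos7 : Real.sqrt 3 / 2 ≤ Real.cos (Real.pi / (7 : ℕ)) := by
    rw [← Real.cos_pi_div_six]
    refine Real.cos_le_cos_of_nonneg_of_le_pi (by positivity) ?_ ?_
    · linarith [Real.pi_pos]
    · push_cast
      linarith [Real.pi_pos]
  obtain ⟨y, hy⟩ := hx
  refine ⟨r + 3 * (y * (j2 : ZMod 21)), ?_⟩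
  have e1 : (7 * (r + 3 * (y * (j2 : ZMod 21))) : ZMod 21) = 7 * r := by
    have h21 : (21 : ZMod 21) = 0 := by decide
    calc (7 * (r + 3 * (y * (j2 : ZMod 21))) : ZMod 21) = 7 * r + 21 * (y * (j2 : ZMod 21)) := by
          ring
      _ = 7 * r := by rw [h21]; ring
  have e2 : (x * (r + 3 * (y * (j2 : ZMod 21))) : ZMod 21) = x * r + 3 * (j2 : ZMod 21) := by
    calc (x * (r + 3 * (y * (j2 : ZMod 21))) : ZMod 21) = x * r + (3 * x * y) * (j2 : ZMod 21) := by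
          ring
      _ = _ := by rw [hy]
  rw [e1, e2, AddChar.map_add_eq_mul, char3, ← hz]
  refine le_of_sq_le_sq ?_ (norm_nonneg _)
  rw [norm_sq_add]
  have e3 : c * (ZMod.stdAddChar (x * r) * exp (2 * Real.pi * I * j2 / (7 : ℕ))) *
      (starRingEnd ℂ) z = c * ZMod.stdAddChar (x * r) * (starRingEnd ℂ) z *
        exp (2 * Real.pi * I * j2 / (7 : ℕ)) := by ring
  have e4 : ‖c * (ZMod.stdAddChar (x * r) * exp (2 * Real.pi * I * j2 / (7 : ℕ)))‖ = ‖c‖ := by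
    rw [← char3, norm_mul, norm_mul, char_norm, char_norm, mul_one, mul_one]
  rw [e3, e4]
  have h5 : ‖c‖ * ‖z‖ * (Real.sqrt 3 / 2) ≤ ‖c‖ * ‖z‖ * Real.cos (Real.pi / (7 : ℕ)) := by
    gcongr
  have h6 : (Real.sqrt 3 / 2 * (‖a‖ + ‖b‖ + ‖c‖)) ^ 2 ≤ (‖z‖ + Real.sqrt 3 / 2 * ‖c‖) ^ 2 := by
    refine pow_le_pow_left₀ (by positivity) ?_ 2
    nlinarith
  refine h6.trans ?_
  have h7 : (Real.sqrt 3 / 2 * ‖c‖) ^ 2 ≤ ‖c‖ ^ 2 := by
    calc (Real.sqrt 3 / 2 * ‖c‖) ^ 2 = Real.sqrt 3 ^ 2 / 4 * ‖c‖ ^ 2 := by ring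
      _ = 3 / 4 * ‖c‖ ^ 2 := by rw [h3]
      _ ≤ ‖c‖ ^ 2 := by nlinarith [sq_nonneg ‖c‖]
  nlinarith

/-- The Sidon constant of `{0, 7, x}`. -/
lemma sidon_eq (x : ZMod 21) (hx : ∃ y : ZMod 21, 3 * x * y = 3) (h0 : x ≠ 0) (h7 : x ≠ 7) :
    sidon ({0, 7, x} : Finset (ZMod 21)) = 2 / Real.sqrt 3 := by
  have h3 : Real.sqrt 3 ^ 2 = 3 := Real.sq_sqrt (by norm_num)
  have h3' : 0 < Real.sqrt 3 := Real.sqrt_pos.2 (by norm_num)
  have h07 : (0 : ZMod 21) ≠ 7 := by decide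
  have hsum : ∀ g : ZMod 21 → ℂ, ∑ y ∈ ({0, 7, x} : Finset (ZMod 21)), g y = g 0 + g 7 + g x := by
    intro g
    rw [sum_insert (by simp [h07, h0.symm]), sum_insert (by simp [h7.symm]), sum_singleton]
    ring
  have hsum' : ∀ g : ZMod 21 → ℝ, ∑ y ∈ ({0, 7, x} : Finset (ZMod 21)), g y = g 0 + g 7 + g x := by
    intro g
    rw [sum_insert (by simp [h07, h0.symm]), sum_insert (by simp [h7.symm]), sum_singleton]
    ring
  refine IsGreatest.csSup_eq ⟨?_, ?_⟩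
  · refine ⟨fun y => if y = 0 then ((1 / Real.sqrt 3 : ℝ) : ℂ) else
      if y = 7 then ((-(1 / Real.sqrt 3) : ℝ) : ℂ) else 0, ?_, ?_⟩
    · intro t
      rw [hsum]
      simp only [h07.symm, h0, h7, if_true, if_false, zero_mul, AddChar.map_zero_eq_one, mul_one,
        add_zero]
      set v : ℂ := ZMod.stdAddChar (N := 21) (7 * t) with hv
      have hv1 : ‖v‖ = 1 := char_norm _
      have hv3 : v ^ 3 = 1 := by
        rw [hv, ← AddChar.map_nsmul_eq_pow]
        have : (3 • (7 * t) : ZMod 21) = 0 := by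
          have h21 : (21 : ZMod 21) = 0 := by decide
          calc (3 • (7 * t) : ZMod 21) = 21 * t := by rw [nsmul_eq_mul]; push_cast; ring
            _ = 0 := by rw [h21, zero_mul]
        rw [this, AddChar.map_zero_eq_one]
      have hsq : normSq v = 1 := by rw [normSq_eq_norm_sq, hv1, one_pow]
      have hre : -(1 / 2) ≤ v.re := by
        have h1 : (v - 1) * (v ^ 2 + v + 1) = 0 := by linear_combination hv3
        rcases mul_eq_zero.1 h1 with h2 | h2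
        · rw [sub_eq_zero.1 h2]; norm_num
        · have h4 : v * (starRingEnd ℂ) v = 1 := by rw [mul_conj, hsq]; simp
          have h5 : v * (v + 1 + (starRingEnd ℂ) v) = 0 := by
            linear_combination h2 + h4
          have hv0 : v ≠ 0 := by
            intro h; rw [h, norm_zero] at hv1; exact zero_ne_one hv1
          have h6 := (mul_eq_zero.1 h5).resolve_left hv0
          have h7 := congrArg re h6
          simp at h7
          linarith
      have e : ((1 / Real.sqrt 3 : ℝ) : ℂ) + ((-(1 / Real.sqrt 3) : ℝ) : ℂ) * v =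
          ((1 / Real.sqrt 3 : ℝ) : ℂ) * (1 + (-v)) := by push_cast; ring
      rw [e, norm_mul, norm_real, Real.norm_of_nonneg (by positivity)]
      have h8 : ‖(1 : ℂ) + (-v)‖ ≤ Real.sqrt 3 := by
        refine le_of_sq_le_sq ?_ h3'.le
        rw [norm_sq_add, h3, norm_neg, hv1, norm_one]
        simp
        linarith
      calc 1 / Real.sqrt 3 * ‖(1 : ℂ) + (-v)‖ ≤ 1 / Real.sqrt 3 * Real.sqrt 3 := by gcongr
        _ = 1 := by field_simp
    · rw [hsum']
      simp only [h07.symm, h0, h7, if_true, if_false, norm_zero, add_zero]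
      rw [norm_real, norm_real, norm_neg, Real.norm_of_nonneg (by positivity)]
      ring
  · rintro s ⟨a, ha, rfl⟩
    rw [hsum']
    obtain ⟨t, ht⟩ := lower x hx (a 0) (a 7) (a x)
    have h1 := ha t
    rw [hsum, zero_mul, AddChar.map_zero_eq_one, mul_one] at h1
    have h2 := ht.trans h1
    rw [le_div_iff₀ h3']
    nlinarith

/-- There are `k` and inequivalent subsets `E`, `F` of `ℤ/kℤ` with the same cardinality and the same
Sidon constant, neither of them extreme. -/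
theorem result : ∃ (k : ℕ) (_ : NeZero k) (E F : Finset (ZMod k)), E.Nonempty ∧
    #E = #F ∧ sidon E = sidon F ∧ ¬ Equivalent E F ∧ ¬ Extreme E ∧ ¬ Extreme F := by
  have hE : sidon ({0, 7, 3} : Finset (ZMod 21)) = 2 / Real.sqrt 3 :=
    sidon_eq 3 ⟨5, by decide⟩ (by decide) (by decide)
  have hF : sidon ({0, 7, 2} : Finset (ZMod 21)) = 2 / Real.sqrt 3 :=
    sidon_eq 2 ⟨4, by decide⟩ (by decide) (by decide)
  have h3 : Real.sqrt 3 ^ 2 = 3 := Real.sq_sqrt (by norm_num)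
  have h3' : 0 < Real.sqrt 3 := Real.sqrt_pos.2 (by norm_num)
  have hne : (2 : ℝ) / Real.sqrt 3 ≠ Real.sqrt ((3 : ℕ) : ℝ) := by
    rw [Nat.cast_ofNat, Ne, div_eq_iff h3'.ne', ← sq, h3]
    norm_num
  have hcE : #({0, 7, 3} : Finset (ZMod 21)) = 3 := by decide
  have hcF : #({0, 7, 2} : Finset (ZMod 21)) = 3 := by decide
  refine ⟨21, inferInstance, {0, 7, 3}, {0, 7, 2}, ⟨0, by decide⟩, by rw [hcE, hcF],
    by rw [hE, hF], ?_, ?_, ?_⟩
  · rintro ⟨u, c, h⟩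
    have key : ∀ u c : ZMod 21, ({0, 7, 2} : Finset (ZMod 21)) ≠
        ({0, 7, 3} : Finset (ZMod 21)).image fun x => u * x + c := by
      decide
    exact key u c h
  · unfold Extreme; rw [hE, hcE]; exact hne
  · unfold Extreme; rw [hF, hcF]; exact hne

end Pool.Agent.Results.MP_e96fbd_an.EqualSidonNotExtreme
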